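import Pool.Agent.W2helper55.HLM.Stm

/-!
# Project HLM, piece B
-/

set_option autoImplicit false

open Cardinal Ordinal Set

namespace Pool.Agent.W4helper65.HLM

open Pool.Agent.W868 Pool.Agent.R587 Pool.Agent.W2helper55.HLM
open ZFSet (pair)

theorem wo_trans {M : Set ZFSet.{0}} {lt : ZFSet.{0} → ZFSet.{0} → Prop} (hW : WO M lt)
    {x y z : ZFSet.{0}} (hx : x ∈ M) (hy : y ∈ M) (hz : z ∈ M) (h1 : lt x y) (h2 : lt y z) :
    lt x z := by
  rcases hW.tri x hx z hz with h | h | h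
  · exact h
  · subst h
    exact (hW.asymm hx hy h1 h2).elim
  · exfalso
    obtain ⟨m, hm, h3, h4⟩ := hW.wf (fun w => w = x ∨ w = y ∨ w = z) ⟨x, hx, Or.inl rfl⟩
    rcases h3 with rfl | rfl | rfl
    · exact h4 z hz (Or.inr (Or.inr rfl)) h
    · exact h4 x hx (Or.inl rfl) h1
    · exact h4 y hy (Or.inr (Or.inl rfl)) h2

theorem ord_mem {c : Cardinal.{0}} {M : Set ZFSet.{0}} (hM : Full c M) (α : Ordinal.{0}) :
    α.card ≤ c → α.toZFSet ∈ M := by
  induction α using Ordinal.induction with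
  | _ α ih =>
  intro hα
  refine (hM.iff _).2 ⟨fun y hy => ?_, ?_⟩
  · obtain ⟨β, hβ, rfl⟩ := Ordinal.mem_toZFSet_iff.1 hy
    exact ih β hβ ((Ordinal.card_le_card hβ.le).trans hα)
  · rw [Ordinal.card_toZFSet]
    exact hα

/-- the initial segments are sets -/
theorem exists_seg {c : Cardinal.{0}} {M : Set ZFSet.{0}} (hL : LCls c M) {y : ZFSet.{0}}
    (hy : y ∈ M) : ∃ I ∈ M, ∀ z, z ∈ I ↔ z ∈ M ∧ ltc M z y := by
  classical
  have hM := hL.full
  obtain ⟨e0, h1, h2, n0, h3⟩ := hL.exists_Cd hy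
  set D := ZFSet.prod (insert e0 (pr e0)) ZFSet.omega with hD
  have hDM : D ∈ M := hM.prod_mem (hM.insert_mem h2 (hM.pr_mem h2)) hM.omega_mem
  set h : ZFSet.{0} → ZFSet.{0} := fun q =>
    if hz : ∃ z ∈ M, ∃ e n, q = pair e n ∧ Cd z e n then hz.choose else ∅ with hh
  have hhM : ∀ q, h q ∈ M := by
    intro q
    simp only [hh]
    split_ifs with hz
    · exact hz.choose_spec.1
    · exact hM.empty_mem
  have hhe : ∀ z ∈ M, ∀ e n, Cd z e n → h (pair e n) = z := by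
    intro z hz e n hc
    have hex : ∃ z ∈ M, ∃ e' n', pair e n = pair e' n' ∧ Cd z e' n' := ⟨z, hz, e, n, rfl, hc⟩
    simp only [hh]
    rw [dif_pos hex]
    obtain ⟨-, e', n', h4, h5⟩ := hex.choose_spec
    obtain ⟨rfl, rfl⟩ := ZFSet.pair_inj.1 h4
    exact h5.uniq hc
  refine ⟨ZFSet.sep (fun z => ltc M z y) (im h D), hM.sep_mem (hM.im_mem hDM fun q _ => hhM q),
    fun z => ?_⟩
  rw [ZFSet.mem_sep]
  constructor
  · rintro ⟨h4, h5⟩
    obtain ⟨q, -, rfl⟩ := mem_im.1 h4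
    exact ⟨hhM q, h5⟩
  · rintro ⟨hz, h5⟩
    refine ⟨?_, h5⟩
    obtain ⟨e, he, n, hn, heo, hc, hlt⟩ := h5
    refine mem_im.2 ⟨pair e n, ?_, (hhe z hz e n hc).symm⟩
    rw [hD, ZFSet.pair_mem_prod, ZFSet.mem_insert_iff]
    refine ⟨?_, hn⟩
    rcases hlt e0 h2 (nat n0) (mem_omega_iff.2 ⟨_, rfl⟩) h1 h3 with h6 | ⟨h6, -⟩
    · exact Or.inr (mem_pr.2 ⟨heo, h1, h6⟩)
    · exact Or.inl h6

theorem p_B : PieceB := by
  classical
  intro c M hL
  have hM := hL.full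
  refine ⟨fun x hx y hy z hz => wo_trans hL.wo hx hy hz, fun y hy => ?_⟩
  obtain ⟨I, hI, hmem⟩ := exists_seg hL hy
  -- the order on the small type
  let T : Type := Shrink.{0} I
  let e : I ≃ T := equivShrink I
  let s : T → T → Prop := fun a b => ltc M (e.symm a).1 (e.symm b).1
  have hTM : ∀ a : T, ((e.symm a).1 : ZFSet.{0}) ∈ M := fun a => ((hmem _).1 (e.symm a).2).1
  have hwf : WellFounded s := by
    rw [WellFounded.wellFounded_iff_has_min]
    rintro S ⟨a, ha⟩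
    obtain ⟨x, hx, ⟨b, hb, hbx⟩, h2⟩ := hL.wo.wf (fun x => ∃ b ∈ S, (e.symm b).1 = x)
      ⟨_, hTM a, a, ha, rfl⟩
    subst hbx
    exact ⟨b, hb, fun d hd h3 => h2 _ (hTM d) ⟨d, hd, rfl⟩ h3⟩
  haveI : IsWellOrder T s :=
    { wf := hwf
      trichotomous := by
        intro a b hab hba
        rcases hL.wo.tri _ (hTM a) _ (hTM b) with h | h | h
        · exact absurd h hab
        · exact e.symm.injective (Subtype.ext h)
        · exact absurd h hba }
  let O : ZFSet.{0} → ZFSet.{0} := fun z =>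
    if hz : z ∈ I then (Ordinal.typein s (e ⟨z, hz⟩)).toZFSet else ∅
  have hO : ∀ z (hz : z ∈ I), O z = (Ordinal.typein s (e ⟨z, hz⟩)).toZFSet := by
    intro z hz
    simp only [O]
    rw [dif_pos hz]
  have hOM : ∀ z ∈ I, O z ∈ M := by
    intro z hz
    rw [hO z hz]
    apply ord_mem hM
    refine le_trans (Ordinal.card_le_card (Ordinal.typein_lt_type s _).le) ?_
    rw [Ordinal.card_type]
    exact hM.card hI
  refine ⟨im (fun z => pair z (O z)) I, hM.im_mem hI fun z hz =>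
    hM.pair_mem (hM.trans hI hz) (hOM z hz), ?_, ?_⟩
  · intro z hz hzy
    have hzI : z ∈ I := (hmem z).2 ⟨hz, hzy⟩
    exact ⟨O z, hOM z hzI, mem_im.2 ⟨z, hzI, rfl⟩⟩
  · intro z hz z' hz' o ho o' ho' hp hp' hlt
    obtain ⟨w, hw, hpw⟩ := mem_im.1 hp
    obtain ⟨rfl, rfl⟩ := ZFSet.pair_inj.1 hpw
    obtain ⟨w', hw', hpw'⟩ := mem_im.1 hp'
    obtain ⟨rfl, rfl⟩ := ZFSet.pair_inj.1 hpw'
    rw [hO _ hw, hO _ hw', Ordinal.toZFSet_mem_toZFSet_iff, Ordinal.typein_lt_typein]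
    change ltc M (e.symm (e _)).1 (e.symm (e _)).1
    rw [Equiv.symm_apply_apply, Equiv.symm_apply_apply]
    exact hlt

end Pool.Agent.W4helper65.HLM
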